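import Mathlib
import Pool.Agent.R960.Fam.Sharp
import Pool.Agent.R960.Fam.Gap2

set_option autoImplicit false

/-!
# The optimal length of intervals with twins in random models of the primes

The integers are decided one after the other; no independence is assumed.  Fix a finite set `Q` of
primes; multiples of the primes of `Q` are never chosen and the other integers `n + 1` are chosen with
conditional probability `(1 + o(1)) ∏_{p ∈ Q} (1 - 1/p)⁻¹ / log n`.  Almost surely the number of twins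
`m, m + 2` with `m ∈ (y, y + h]` is asymptotic to `𝔖 h / (log y)²` as soon as `h` is a large multiple of
`(log y)³`, and this is the right order: there is `κ > 0` such that almost surely infinitely many of the
intervals `(y, y + κ (log y)³]` contain no twins.
-/

open MeasureTheory Filter
open scoped Topology

namespace Pool.Agent.Results.MP_b51559_nt.TwinGapsInSievedModels

/-- the conditional probability that `n + 1` is chosen, given the information up to `n` -/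
noncomputable def density {Ω : Type} {mΩ : MeasurableSpace Ω} (μ : Measure Ω) (ℱ : Filtration ℕ mΩ)
    (A : ℕ → Set Ω) (n : ℕ) : Ω → ℝ := μ[(A (n + 1)).indicator (fun _ => (1 : ℝ)) | ℱ n]

/-- the number of `m` with `y < m ≤ y + h` such that `m` and `m + 2` are in `S` -/
noncomputable def twins (S : Set ℕ) (y h : ℕ) : ℕ := {m : ℕ | (y < m ∧ m ≤ y + h) ∧ m ∈ S ∧ m + 2 ∈ S}.ncard

/-- the Hardy and Littlewood factors of the primes of `Q` for twins -/
noncomputable def twinFactor (Q : Finset ℕ) : ℝ :=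
  ∏ p ∈ Q, (1 - (if p = 2 then 1 else 2) / (p : ℝ)) / (1 - 1 / (p : ℝ)) ^ 2

lemma factor_eq (Q : Finset ℕ) (hQ : ∀ p ∈ Q, p.Prime) : Pool.Agent.R528.RM.singH Q {0, 2} = twinFactor Q := by
  unfold Pool.Agent.R528.RM.singH twinFactor
  refine Finset.prod_congr rfl fun p hp => ?_
  have h1 : Pool.Agent.R528.RM.occ {0, 2} p = if p = 2 then 1 else 2 := by
    unfold Pool.Agent.R528.RM.occ
    rw [Finset.image_insert, Finset.image_singleton, Nat.zero_mod]
    split_ifs with h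
    · subst h
      rfl
    · have h2 : 2 % p ≠ 0 := by
        intro h3
        have h4 := Nat.dvd_of_mod_eq_zero h3
        have h5 := Nat.le_of_dvd (by norm_num) h4
        have h6 := (hQ p hp).two_le
        omega
      rw [Finset.card_insert_of_notMem (by simpa using h2.symm), Finset.card_singleton]
  rw [h1, show ({0, 2} : Finset ℕ).card = 2 from rfl]
  split_ifs <;> norm_num

lemma factor_pos (Q : Finset ℕ) (hQ : ∀ p ∈ Q, p.Prime) : 0 < twinFactor Q := by
  refine Finset.prod_pos fun p hp => ?_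
  have h2 : (2 : ℝ) ≤ p := by exact_mod_cast (hQ p hp).two_le
  have hp0 : (0 : ℝ) < p := by linarith
  have h3 : 0 < 1 - 1 / (p : ℝ) := by
    rw [sub_pos, div_lt_one hp0]
    linarith
  refine div_pos ?_ (by positivity)
  split_ifs with h
  · exact h3
  · have h4 : 3 ≤ p := by
      have h5 := (hQ p hp).two_le
      omega
    have h4' : (3 : ℝ) ≤ p := by exact_mod_cast h4
    rw [sub_pos, div_lt_one hp0]
    linarith

lemma twins_eq (S : Set ℕ) (y h : ℕ) : twins S y h = Pool.Agent.R960.Fam.cntI S {0, 2} y h := by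
  unfold twins Pool.Agent.R960.Fam.cntI
  congr 1
  ext m
  simp

lemma pow_big {y : ℕ} (hy : 4 ≤ y) : 2 * y + 2 < 2 ^ y := by
  induction y, hy using Nat.le_induction with
  | base => norm_num
  | succ y hy ih =>
    rw [pow_succ]
    omega

end Pool.Agent.Results.MP_b51559_nt.TwinGapsInSievedModels

open Pool.Agent.Results.MP_b51559_nt.TwinGapsInSievedModels

theorem Pool.Agent.Results.MP_b51559_nt.TwinGapsInSievedModels.result
    {Ω : Type} [mΩ : MeasurableSpace Ω] (μ : Measure Ω) [IsProbabilityMeasure μ]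
    (ℱ : Filtration ℕ mΩ) (A : ℕ → Set Ω) (hA : ∀ n, MeasurableSet[ℱ n] (A n))
    (Q : Finset ℕ) (hQ : ∀ p ∈ Q, p.Prime) (hcop : ∀ n, (∃ p ∈ Q, p ∣ n) → A n = ∅)
    (hd : ∀ᵐ ω ∂μ, Tendsto (fun n : ℕ => density μ ℱ A n ω * Real.log n)
        (atTop ⊓ 𝓟 {n : ℕ | ∀ p ∈ Q, ¬ p ∣ n + 1}) (𝓝 (∏ p ∈ Q, (1 - 1 / (p : ℝ))⁻¹))) :
    0 < twinFactor Q ∧
    (∀ᵐ ω ∂μ, (∀ ε : ℝ, 0 < ε → ∃ K : ℝ, 0 < K ∧ ∀ᶠ y : ℕ in atTop, ∀ h : ℕ, h ≤ y → K * Real.log y ^ 3 ≤ h →
        |(twins {a | ω ∈ A a} y h : ℝ) * Real.log y ^ 2 / h - twinFactor Q| ≤ ε) ∧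
      ∃ K : ℝ, 0 < K ∧ ∀ᶠ n : ℕ in atTop, ∃ m : ℕ, n + 4 < m ∧ (m : ℝ) ≤ n + 4 + K * Real.log (n + 4 : ℕ) ^ 3 ∧
        m + 2 < 2 ^ (n + 4) ∧ ω ∈ A m ∧ ω ∈ A (m + 2)) ∧
    ∃ κ : ℝ, 0 < κ ∧ ∀ᵐ ω ∂μ, ∃ᶠ y : ℕ in atTop, ∀ m : ℕ, y < m → (m : ℝ) ≤ y + κ * Real.log y ^ 3 →
      ¬ (ω ∈ A m ∧ ω ∈ A (m + 2)) := by
  classical
  have hf := factor_pos Q hQ
  refine ⟨hf, ?_, Pool.Agent.R960.Fam.twin_gaps (μ := μ) hA Q hQ hcop hd⟩
  filter_upwards [Pool.Agent.R960.Fam.twin_sharp (μ := μ) hA Q hQ hcop hd] with ω hω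
  set S := {a | ω ∈ A a} with hSdef
  have hlaw : ∀ ε : ℝ, 0 < ε → ∃ K : ℝ, 0 < K ∧ ∀ᶠ y : ℕ in atTop, ∀ h : ℕ, h ≤ y → K * Real.log y ^ 3 ≤ h →
      |(twins S y h : ℝ) * Real.log y ^ 2 / h - twinFactor Q| ≤ ε := by
    intro ε hε
    obtain ⟨K, hK, hk⟩ := hω ε hε
    refine ⟨K, hK, ?_⟩
    filter_upwards [hk] with y hy h h1 h2
    have := hy h h1 h2
    rw [factor_eq Q hQ, ← twins_eq] at this
    exact this
  refine ⟨hlaw, ?_⟩
  obtain ⟨K, hK, hk⟩ := hlaw (twinFactor Q / 2) (by positivity)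
  refine ⟨K + 1, by positivity, ?_⟩
  have tl := Real.tendsto_log_atTop.comp (tendsto_natCast_atTop_atTop (R := ℝ))
  have ev : ∀ᶠ y : ℕ in atTop, ∃ m : ℕ, y < m ∧ (m : ℝ) ≤ y + (K + 1) * Real.log y ^ 3 ∧
      m + 2 < 2 ^ y ∧ ω ∈ A m ∧ ω ∈ A (m + 2) := by
    filter_upwards [hk, tl.eventually_ge_atTop 1, Pool.Agent.R960.Fam.log_pow_le 3 (show 0 < 1 / (K + 1) by positivity),
      eventually_ge_atTop 4] with y h1 h2 h3 h4
    have h2' : 1 ≤ Real.log y := h2
    have hl3 : 1 ≤ Real.log (y : ℝ) ^ 3 := one_le_pow₀ h2'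
    set h := ⌈K * Real.log (y : ℝ) ^ 3⌉₊ with hh
    have h5 : K * Real.log (y : ℝ) ^ 3 ≤ h := Nat.le_ceil _
    have h6 : (h : ℝ) < K * Real.log (y : ℝ) ^ 3 + 1 := Nat.ceil_lt_add_one (by positivity)
    have h7 : (h : ℝ) ≤ (K + 1) * Real.log (y : ℝ) ^ 3 := by linarith
    have h8 : (K + 1) * Real.log (y : ℝ) ^ 3 ≤ y := by
      have := mul_le_mul_of_nonneg_left h3 (show 0 ≤ K + 1 by positivity)
      have e : (K + 1) * (1 / (K + 1) * (y : ℝ)) = y := by field_simp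
      linarith
    have h9 : h ≤ y := by
      have : (h : ℝ) ≤ y := by linarith
      exact_mod_cast this
    have h10 := h1 h h9 h5
    have h11 : twins S y h ≠ 0 := by
      intro h12
      rw [h12] at h10
      simp only [Nat.cast_zero, zero_mul, zero_div, zero_sub, abs_neg] at h10
      rw [abs_of_pos hf] at h10
      linarith
    have h12 : {m : ℕ | (y < m ∧ m ≤ y + h) ∧ m ∈ S ∧ m + 2 ∈ S}.Nonempty := by
      by_contra hne
      rw [Set.not_nonempty_iff_eq_empty] at hne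
      apply h11
      unfold twins
      rw [hne, Set.ncard_empty]
    obtain ⟨m, ⟨hm1, hm2⟩, hm3, hm4⟩ := h12
    refine ⟨m, hm1, ?_, ?_, hm3, hm4⟩
    · have : (m : ℝ) ≤ y + h := by exact_mod_cast hm2
      linarith
    · have := pow_big h4
      omega
  filter_upwards [(tendsto_add_atTop_nat 4).eventually ev] with n hn
  obtain ⟨m, h1, h2, h3, h4, h5⟩ := hn
  refine ⟨m, h1, ?_, h3, h4, h5⟩
  push_cast at h2 ⊢
  exact h2
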